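import Pool.Agent.helper7.EP.SpecB

set_option autoImplicit false

open Finset

noncomputable section

namespace Pool.Agent.EP

theorem XB1_class (a p X y : ℕ) (hp : p.Prime) (hy : y < p) (hpy : 2 < p) (hy0 : 0 < y) :
    #{n ∈ range (X + 1) | 2 ^ a < 24 * n + 3 ∧ p ∣ 24 * n + 3 - 2 ^ a} ≤ X / y + 1 := by
  classical
  have h1 : #{n ∈ range (X + 1) | 2 ^ a < 24 * n + 3 ∧ p ∣ 24 * n + 3 - 2 ^ a}
      ≤ #(range (X / y + 1)) := by
    apply Finset.card_le_card_of_injOn (fun n => n / p)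
    · intro n hn
      simp only [coe_filter, mem_range, Set.mem_ofPred_eq] at hn
      simp only [coe_range, Set.mem_Iio]
      have h3 : n / p ≤ X / p := Nat.div_le_div_right (by omega)
      have h2 : X / p ≤ X / y := Nat.div_le_div_left hy.le hy0
      omega
    · intro n hn m hm hnm
      simp only [coe_filter, mem_range, Set.mem_ofPred_eq] at hn hm
      simp only at hnm
      obtain ⟨-, hn1, hn2⟩ := hn
      obtain ⟨-, hm1, hm2⟩ := hm
      have hd1 : (p : ℤ) ∣ 24 * (n : ℤ) + 3 - 2 ^ a := by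
        have h := Int.natCast_dvd_natCast.mpr hn2
        rw [Nat.cast_sub hn1.le] at h
        push_cast at h
        exact h
      have hd2 : (p : ℤ) ∣ 24 * (m : ℤ) + 3 - 2 ^ a := by
        have h := Int.natCast_dvd_natCast.mpr hm2
        rw [Nat.cast_sub hm1.le] at h
        push_cast at h
        exact h
      have hd : (p : ℤ) ∣ 24 * ((m : ℤ) - n) := by
        have h := dvd_sub hd2 hd1
        have e : (24 * (m : ℤ) + 3 - 2 ^ a) - (24 * (n : ℤ) + 3 - 2 ^ a) = 24 * ((m : ℤ) - n) := by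
          ring
        rwa [e] at h
      have hmod : n % p = m % p := by
        rcases (Nat.prime_iff_prime_int.mp hp).dvd_or_dvd hd with h | h
        · exfalso
          have h24 : p ∣ 24 := by exact_mod_cast h
          have h3 : p = 3 := by
            have e24 : (24 : ℕ) = 2 ^ 3 * 3 := by norm_num
            rw [e24] at h24
            rcases (Nat.Prime.dvd_mul hp).mp h24 with h8 | h8
            · have h9 := (Nat.prime_dvd_prime_iff_eq hp Nat.prime_two).mp (hp.dvd_of_dvd_pow h8)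
              omega
            · exact (Nat.prime_dvd_prime_iff_eq hp Nat.prime_three).mp h8
          subst h3
          have h4 : (3 : ℤ) ∣ 2 ^ a := by
            have h5 : (3 : ℤ) ∣ 24 * (n : ℤ) + 3 := ⟨8 * (n : ℤ) + 1, by ring⟩
            have h6 := dvd_sub h5 hd1
            have e : (24 * (n : ℤ) + 3) - (24 * (n : ℤ) + 3 - 2 ^ a) = 2 ^ a := by ring
            rwa [e] at h6
          have h7 : (3 : ℤ) ∣ 2 := Int.prime_three.dvd_of_dvd_pow h4
          omega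
        · exact (Nat.modEq_iff_dvd.mpr h)
      rw [← Nat.div_add_mod n p, ← Nat.div_add_mod m p, hnm, hmod]
  simpa using h1

theorem XB1_two (a y j : ℕ) (ha : 1 ≤ a) (hy : 2 ^ a ≤ y) (hj0 : 0 < j) (hj : j < 2 * 4 ^ a) :
    #{p ∈ range (j + 1) | p.Prime ∧ y < p ∧ p ∣ j} ≤ 2 := by
  classical
  by_contra hcon
  push Not at hcon
  obtain ⟨p, q, r, hp, hq, hr, hpq, hpr, hqr⟩ := Finset.two_lt_card_iff.mp hcon
  simp only [mem_filter, mem_range] at hp hq hr
  obtain ⟨-, hp1, hp2, hp3⟩ := hp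
  obtain ⟨-, hq1, hq2, hq3⟩ := hq
  obtain ⟨-, hr1, hr2, hr3⟩ := hr
  have c1 : Nat.Coprime p q := (Nat.coprime_primes hp1 hq1).mpr hpq
  have c2 : Nat.Coprime p r := (Nat.coprime_primes hp1 hr1).mpr hpr
  have c3 : Nat.Coprime q r := (Nat.coprime_primes hq1 hr1).mpr hqr
  have d1 : p * q ∣ j := c1.mul_dvd_of_dvd_of_dvd hp3 hq3
  have d2 : p * q * r ∣ j := (Nat.Coprime.mul_left c2 c3).mul_dvd_of_dvd_of_dvd d1 hr3
  have hle : p * q * r ≤ j := Nat.le_of_dvd hj0 d2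
  have e1 : 2 ^ a ≤ p := by omega
  have e2 : 2 ^ a ≤ q := by omega
  have e3 : 2 ^ a ≤ r := by omega
  have e4 : 2 ^ a * 2 ^ a * 2 ^ a ≤ p * q * r := Nat.mul_le_mul (Nat.mul_le_mul e1 e2) e3
  have e5 : (4 : ℕ) ^ a = 2 ^ a * 2 ^ a := by
    rw [← mul_pow]; norm_num
  have e6 : 2 ≤ 2 ^ a := by
    calc 2 = 2 ^ 1 := by norm_num
      _ ≤ 2 ^ a := Nat.pow_le_pow_right (by norm_num) ha
  have e7 : 2 * 4 ^ a ≤ 2 ^ a * 2 ^ a * 2 ^ a := by
    rw [e5, mul_comm 2 (2 ^ a * 2 ^ a)]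
    exact Nat.mul_le_mul_left _ e6
  omega

theorem XB1 : XB1_stmt := by
  classical
  intro a y k X ha hk hy
  have hk' := hk
  simp only [PK, mem_filter, mem_Ioc] at hk'
  obtain ⟨⟨hk1, hk2⟩, -, -⟩ := hk'
  have e5 : (4 : ℕ) ^ a = 2 ^ a * 2 ^ a := by
    rw [← mul_pow]; norm_num
  have hkA : k * 2 ^ a ≤ 2 * 4 ^ a := by
    rw [e5]
    calc k * 2 ^ a ≤ (2 * 2 ^ a) * 2 ^ a := Nat.mul_le_mul_right _ hk2
      _ = 2 * (2 ^ a * 2 ^ a) := by ring
  have e6 : 2 ≤ 2 ^ a := by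
    calc 2 = 2 ^ 1 := by norm_num
      _ ≤ 2 ^ a := Nat.pow_le_pow_right (by norm_num) ha
  have hW : ∀ w ∈ ws (k * 2 ^ a), w < 2 ^ a ∧ 0 < k * 2 ^ a - 3 * w ^ 2 ∧
      k * 2 ^ a - 3 * w ^ 2 < 2 * 4 ^ a := by
    intro w hw
    simp only [ws, mem_filter, mem_range] at hw
    obtain ⟨-, hw1, hw2⟩ := hw
    refine ⟨?_, by omega, ?_⟩
    · by_contra hcon
      push Not at hcon
      have h1 : 2 ^ a * 2 ^ a ≤ w * w := Nat.mul_le_mul hcon hcon
      have h2 : w ^ 2 = w * w := by ring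
      rw [e5] at hkA
      omega
    · have h1 : 0 < w := by omega
      have h2 : 0 < w ^ 2 := by positivity
      omega
  have hWc : #(ws (k * 2 ^ a)) ≤ 2 ^ a := by
    have h1 : ws (k * 2 ^ a) ⊆ range (2 ^ a) := by
      intro w hw
      exact mem_range.mpr (hW w hw).1
    have h2 := card_le_card h1
    simpa using h2
  set F : Finset ℕ := (ws (k * 2 ^ a)).biUnion fun w =>
    ({p ∈ range (k * 2 ^ a - 3 * w ^ 2 + 1) | p.Prime ∧ y < p ∧ p ∣ k * 2 ^ a - 3 * w ^ 2}).biUnion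
      fun p => {n ∈ range (X + 1) | 2 ^ a < 24 * n + 3 ∧ p ∣ 24 * n + 3 - 2 ^ a} with hF
  have hsub : {n : ℕ | n ≤ X ∧ 2 ^ a < 24 * n + 3 ∧ XB a y k n} ⊆ (F : Set ℕ) := by
    rintro n ⟨hn1, hn2, p, hp, hyp, hpd, w, hw, hpw⟩
    simp only [hF, coe_biUnion, Set.mem_iUnion, mem_coe, mem_filter, mem_range]
    refine ⟨w, hw, p, ⟨?_, hp, hyp, hpw⟩, by omega, hn2, hpd⟩
    have h1 := Nat.le_of_dvd (hW w hw).2.1 hpw
    omega
  calc Set.ncard {n : ℕ | n ≤ X ∧ 2 ^ a < 24 * n + 3 ∧ XB a y k n}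
      ≤ Set.ncard (F : Set ℕ) := Set.ncard_le_ncard hsub (Finset.finite_toSet F)
    _ = #F := Set.ncard_coe_finset F
    _ ≤ #(ws (k * 2 ^ a)) * (2 * (X / y + 1)) := by
        apply card_biUnion_le_card_mul
        intro w hw
        refine le_trans (card_biUnion_le_card_mul _ _ (X / y + 1) ?_) ?_
        · intro p hp
          simp only [mem_filter, mem_range] at hp
          exact XB1_class a p X y hp.2.1 hp.2.2.1 (by omega) (by omega)
        · exact Nat.mul_le_mul_right _ (XB1_two a y _ ha hy (hW w hw).2.1 (hW w hw).2.2)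
    _ ≤ 2 ^ a * (2 * (X / y + 1)) := Nat.mul_le_mul_right _ hWc
    _ = 2 * 2 ^ a * (X / y + 1) := by ring

end Pool.Agent.EP
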